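import Pool.Agent.Helper386.PD3.Alg

/-!
# The action of the group ring on the functions on a finite `G`-set
-/

set_option autoImplicit false

open scoped Matrix
open Pool.Agent.Helper386.PD3

namespace Pool.Agent.Q103.FC

noncomputable section

variable {G : Type} [Group G] {Y : Type*} [MulAction G Y] {a b d : ℕ}

/-- translation of functions -/
def trl (Y : Type*) [MulAction G Y] : G →* Module.End ℝ (Y → ℝ) where
  toFun g :=
    { toFun := fun f y => f (g⁻¹ • y)
      map_add' := fun _ _ => rfl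
      map_smul' := fun _ _ => rfl }
  map_one' := by
    ext f y
    change f ((1 : G)⁻¹ • y) = f y
    rw [inv_one, one_smul]
  map_mul' g h := by
    ext f y
    change f ((g * h)⁻¹ • y) = f (h⁻¹ • g⁻¹ • y)
    rw [mul_inv_rev, mul_smul]

/-- the action of the group ring -/
def fa : RR G →+* Module.End ℝ (Y → ℝ) := (MonoidAlgebra.lift ℤ _ G (trl (G := G) Y)).toRingHom

theorem fa_of (g : G) (f : Y → ℝ) (y : Y) : fa (gof g) f y = f (g⁻¹ • y) := by
  have : (fa (gof g) : Module.End ℝ (Y → ℝ)) = trl Y g := MonoidAlgebra.lift_of _ _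
  rw [this]
  rfl

/-- the pairing of a row vector with a cochain -/
def pr (v : Fin a → RR G) (u : Fin a → Y → ℝ) : Y → ℝ := ∑ k, fa (v k) (u k)

theorem pr_add (v v' : Fin a → RR G) (u : Fin a → Y → ℝ) : pr (v + v') u = pr v u + pr v' u := by
  rw [pr, pr, pr, ← Finset.sum_add_distrib]
  exact Finset.sum_congr rfl fun k _ => by rw [Pi.add_apply, map_add]; rfl

theorem pr_neg (v : Fin a → RR G) (u : Fin a → Y → ℝ) : pr (-v) u = -pr v u := by
  rw [pr, pr, ← Finset.sum_neg_distrib]
  exact Finset.sum_congr rfl fun k _ => by rw [Pi.neg_apply, map_neg]; rfl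

theorem pr_sub (v v' : Fin a → RR G) (u : Fin a → Y → ℝ) : pr (v - v') u = pr v u - pr v' u := by
  rw [sub_eq_add_neg, pr_add, pr_neg, ← sub_eq_add_neg]

theorem pr_smul (r : RR G) (v : Fin a → RR G) (u : Fin a → Y → ℝ) : pr (r • v) u = fa r (pr v u) := by
  rw [pr, pr, map_sum]
  exact Finset.sum_congr rfl fun k _ => by rw [Pi.smul_apply, smul_eq_mul, map_mul]; rfl

theorem pr_zsmul (n : ℤ) (v : Fin a → RR G) (u : Fin a → Y → ℝ) :
    pr (n • v) u = (n : ℝ) • pr v u := by
  rw [pr, pr, Finset.smul_sum]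
  exact Finset.sum_congr rfl fun k _ => by
    rw [Pi.smul_apply, map_zsmul, ← Int.cast_smul_eq_zsmul ℝ]
    rfl

theorem pr_add_right (v : Fin a → RR G) (u u' : Fin a → Y → ℝ) :
    pr v (u + u') = pr v u + pr v u' := by
  rw [pr, pr, pr, ← Finset.sum_add_distrib]
  exact Finset.sum_congr rfl fun k _ => by rw [Pi.add_apply, map_add]

theorem pr_smul_right (v : Fin a → RR G) (r : ℝ) (u : Fin a → Y → ℝ) :
    pr v (r • u) = r • pr v u := by
  rw [pr, pr, Finset.smul_sum]
  exact Finset.sum_congr rfl fun k _ => by rw [Pi.smul_apply, map_smul]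

theorem pr_zero_right (v : Fin a → RR G) : pr v (0 : Fin a → Y → ℝ) = 0 := by
  rw [pr]
  exact Finset.sum_eq_zero fun k _ => by rw [Pi.zero_apply, map_zero]

theorem pr_single (k : Fin a) (u : Fin a → Y → ℝ) : pr (Pi.single k (1 : RR G)) u = u k := by
  rw [pr, Finset.sum_eq_single k]
  · rw [Pi.single_eq_same, map_one]
    rfl
  · intro j _ hj
    rw [Pi.single_eq_of_ne hj, map_zero]
    rfl
  · intro h
    exact absurd (Finset.mem_univ k) h

/-- the coboundary operator -/
def dl (D : Matrix (Fin b) (Fin a) (RR G)) : (Fin a → Y → ℝ) →ₗ[ℝ] (Fin b → Y → ℝ) where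
  toFun u j := pr (D j) u
  map_add' _ _ := funext fun _ => pr_add_right _ _ _
  map_smul' _ _ := funext fun _ => pr_smul_right _ _ _

theorem dl_apply (D : Matrix (Fin b) (Fin a) (RR G)) (u : Fin a → Y → ℝ) (j : Fin b) :
    dl D u j = pr (D j) u := rfl

theorem pr_vecMul (v : Fin b → RR G) (D : Matrix (Fin b) (Fin a) (RR G)) (u : Fin a → Y → ℝ) :
    pr (v ᵥ* D) u = pr v (dl D u) := by
  have h1 : ∀ k, fa ((v ᵥ* D) k) (u k) = ∑ j, fa (v j) (fa (D j k) (u k)) := by
    intro k
    rw [Matrix.vecMul, dotProduct, map_sum, LinearMap.sum_apply]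
    exact Finset.sum_congr rfl fun j _ => by rw [map_mul]; rfl
  have h2 : ∀ j, fa (v j) (dl D u j) = ∑ k, fa (v j) (fa (D j k) (u k)) := by
    intro j
    rw [dl_apply, pr, map_sum]
  rw [pr, pr]
  simp only [h1, h2]
  exact Finset.sum_comm

theorem dl_dl {D : Matrix (Fin b) (Fin a) (RR G)} {D' : Matrix (Fin d) (Fin b) (RR G)}
    (h : ∀ v, (v ᵥ* D') ᵥ* D = 0) (u : Fin a → Y → ℝ) : dl D' (dl D u) = 0 := by
  funext j
  rw [dl_apply, ← pr_vecMul]
  have h1 := h (Pi.single j 1)
  rw [Matrix.single_one_vecMul] at h1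
  have h2 : D' j ᵥ* D = 0 := h1
  rw [h2, pr]
  exact Finset.sum_eq_zero fun k _ => by rw [Pi.zero_apply, map_zero]; rfl

/-- the conjugate transpose -/
def dag (D : Matrix (Fin b) (Fin a) (RR G)) : Matrix (Fin a) (Fin b) (RR G) :=
  Matrix.of fun k j => dg 1 (D j k)

/-- the conjugate of a vector -/
def dv (v : Fin a → RR G) : Fin a → RR G := fun k => dg 1 (v k)

theorem dv_dv (v : Fin a → RR G) : dv (dv v) = v := funext fun _ => dg_dg _ _

theorem dv_zero : dv (0 : Fin a → RR G) = 0 := funext fun _ => dg_zero _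

theorem dv_mulVec (D : Matrix (Fin b) (Fin a) (RR G)) (t : Fin a → RR G) :
    dv (D *ᵥ t) = dv t ᵥ* dag D := by
  funext j
  change dg 1 (∑ k, D j k * t k) = ∑ k, dg 1 (t k) * dg 1 (D j k)
  rw [dg_sum]
  exact Finset.sum_congr rfl fun k _ => dg_mul _ _ _

theorem dv_vecMul_dag (D : Matrix (Fin b) (Fin a) (RR G)) (v : Fin a → RR G) :
    dv (v ᵥ* dag D) = D *ᵥ dv v := by
  rw [← dv_dv v, ← dv_mulVec, dv_dv, dv_dv]

theorem dv_smul (g : G) (v : Fin a → RR G) (k : Fin a) :
    dv (gof g • v) k = dv v k * gof g⁻¹ := by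
  change dg 1 (gof g * v k) = dg 1 (v k) * gof g⁻¹
  rw [dg_mul, dg_of]
  simp

theorem dv_add (v v' : Fin a → RR G) : dv (v + v') = dv v + dv v' := funext fun _ => dg_add _ _ _

section finite

variable [Fintype Y]

theorem sum_fa (r : RR G) (f z : Y → ℝ) :
    ∑ y, fa r f y * z y = ∑ y, f y * fa (dg 1 r) z y := by
  induction r using rr_ind with
  | h1 g =>
    rw [dg_of]
    simp only [MonoidHom.one_apply, Units.val_one, one_smul, fa_of, inv_inv]
    rw [← Equiv.sum_comp (MulAction.toPerm g : Equiv.Perm Y)]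
    refine Finset.sum_congr rfl fun y _ => ?_
    rw [MulAction.toPerm_apply, inv_smul_smul]
  | h2 r s hr hs =>
    rw [dg_add, map_add, map_add]
    simp only [LinearMap.add_apply, Pi.add_apply, add_mul, mul_add, Finset.sum_add_distrib]
    rw [hr, hs]
  | h3 r hr =>
    rw [dg_neg, map_neg, map_neg]
    simp only [LinearMap.neg_apply, Pi.neg_apply, neg_mul, mul_neg, Finset.sum_neg_distrib]
    rw [hr]

theorem sum_dl (D : Matrix (Fin b) (Fin a) (RR G)) (u : Fin a → Y → ℝ) (z : Fin b → Y → ℝ) :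
    ∑ j, ∑ y, dl D u j y * z j y = ∑ k, ∑ y, u k y * dl (dag D) z k y := by
  have h1 : ∀ j, ∑ y, dl D u j y * z j y = ∑ k, ∑ y, fa (D j k) (u k) y * z j y := by
    intro j
    rw [Finset.sum_comm]
    refine Finset.sum_congr rfl fun y _ => ?_
    rw [dl_apply, pr, Finset.sum_apply, Finset.sum_mul]
  have h2 : ∀ k, ∑ y, u k y * dl (dag D) z k y = ∑ j, ∑ y, u k y * fa (dg 1 (D j k)) (z j) y := by
    intro k
    rw [Finset.sum_comm]
    refine Finset.sum_congr rfl fun y _ => ?_
    rw [dl_apply, pr, Finset.sum_apply, Finset.mul_sum]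
    rfl
  simp only [h1, h2, sum_fa]
  exact Finset.sum_comm

/-- the standard pairing -/
def bil (b : ℕ) (Y : Type*) [Fintype Y] : (Fin b → Y → ℝ) →ₗ[ℝ] Module.Dual ℝ (Fin b → Y → ℝ) where
  toFun z :=
    { toFun := fun u => ∑ j, ∑ y, u j y * z j y
      map_add' := fun u u' => by
        simp only [Pi.add_apply, add_mul, Finset.sum_add_distrib]
      map_smul' := fun r u => by
        simp only [Pi.smul_apply, smul_eq_mul, mul_assoc, ← Finset.mul_sum, RingHom.id_apply] }
  map_add' z z' := by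
    ext u
    simp [mul_add, Finset.sum_add_distrib]
  map_smul' r z := by
    ext u
    simp [Finset.mul_sum, mul_left_comm]

theorem bil_apply (z u : Fin b → Y → ℝ) : bil b Y z u = ∑ j, ∑ y, u j y * z j y := rfl

theorem bil_inj : Function.Injective (bil b Y) := by
  rw [injective_iff_map_eq_zero]
  intro z hz
  have h1 : bil b Y z z = 0 := by rw [hz]; rfl
  rw [bil_apply] at h1
  funext j y
  have h2 := (Finset.sum_eq_zero_iff_of_nonneg (fun j _ =>
    Finset.sum_nonneg fun y _ => mul_self_nonneg (z j y))).1 h1 j (Finset.mem_univ j)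
  have h3 := (Finset.sum_eq_zero_iff_of_nonneg (fun y _ => mul_self_nonneg (z j y))).1 h2 y
    (Finset.mem_univ y)
  exact mul_self_eq_zero.1 h3

theorem rank_dag (D : Matrix (Fin b) (Fin a) (RR G)) :
    Module.finrank ℝ (LinearMap.range (dl (Y := Y) (dag D))) =
      Module.finrank ℝ (LinearMap.range (dl (Y := Y) D)) := by
  have hsurj : Function.Surjective (bil b Y) := by
    refine (LinearMap.injective_iff_surjective_of_finrank_eq_finrank ?_).1 bil_inj
    exact (Subspace.dual_finrank_eq).symm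
  have h1 : (dl (Y := Y) D).dualMap ∘ₗ bil b Y = bil a Y ∘ₗ dl (dag D) := by
    refine LinearMap.ext fun z => LinearMap.ext fun u => ?_
    change ∑ j, ∑ y, dl D u j y * z j y = ∑ k, ∑ y, u k y * dl (dag D) z k y
    exact sum_dl D u z
  have h2 : LinearMap.range ((dl (Y := Y) D).dualMap ∘ₗ bil b Y) =
      LinearMap.range (dl (Y := Y) D).dualMap :=
    LinearMap.range_comp_of_range_eq_top _ (LinearMap.range_eq_top.2 hsurj)
  rw [← LinearMap.finrank_range_dualMap_eq_finrank_range (dl (Y := Y) D), ← h2, h1,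
    LinearMap.range_comp]
  exact (LinearEquiv.finrank_eq (Submodule.equivMapOfInjective _ bil_inj _))

end finite

end

end Pool.Agent.Q103.FC
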