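import Pool.Agent.Q103.FC.Act

/-!
# Cohomology of finite coverings in the degrees zero and one

`A`, `B` are the boundary operators in the degrees one and two of a resolution of `ℤ`, twisted by a
character `w` with values `±1`.  The cohomology in degree zero with coefficients in the functions on
a transitive finite `G`-set has dimension at most one; the cohomology in degree one has dimension at
most `dim Hom(H_w, ℝ)`, where `H_w` is the subgroup of the stabilizer on which `w` is trivial.
-/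

set_option autoImplicit false

open scoped Matrix
open Pool.Agent.Helper386.PD3

namespace Pool.Agent.Q103.FC

noncomputable section

variable {G : Type} [Group G] {Y : Type*} [MulAction G Y] {a b d : ℕ}

/-- the low degrees of a resolution of `ℤ` twisted by `w` -/
structure Low (A : Matrix (Fin b) (Fin a) (RR G)) (B : Matrix (Fin d) (Fin b) (RR G))
    (w : G →* ℤˣ) (ε : (Fin a → RR G) →+ ℤ) : Prop where
  equi : ∀ g v, ε (gof g • v) = ((w g : ℤˣ) : ℤ) * ε v
  surj : ∃ e, ε e = 1
  exact0 : ∀ v, ε v = 0 → ∃ u, u ᵥ* A = v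
  comp : ∀ u, ε (u ᵥ* A) = 0
  exact1 : ∀ v, v ᵥ* A = 0 → ∃ u, u ᵥ* B = v

/-- the sign -/
def sg (w : G →* ℤˣ) (g : G) : ℝ := (((w g : ℤˣ) : ℤ) : ℝ)

theorem sg_mul (w : G →* ℤˣ) (g h : G) : sg w (g * h) = sg w g * sg w h := by
  rw [sg, sg, sg, map_mul, Units.val_mul, Int.cast_mul]

theorem sg_cases (w : G →* ℤˣ) (g : G) : sg w g = 1 ∨ sg w g = -1 := by
  rcases Int.units_eq_one_or (w g) with h | h
  · left; rw [sg, h]; norm_num
  · right; rw [sg, h]; norm_num

theorem sg_sq (w : G →* ℤˣ) (g : G) : sg w g * sg w g = 1 := by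
  rcases sg_cases w g with h | h <;> rw [h] <;> norm_num

theorem sg_eq_one {w : G →* ℤˣ} {g : G} (h : sg w g = 1) : w g = 1 := by
  rcases Int.units_eq_one_or (w g) with h' | h'
  · exact h'
  · rw [sg, h'] at h
    norm_num at h

theorem sg_inv (w : G →* ℤˣ) (g : G) : sg w g⁻¹ = sg w g := by
  rw [sg, sg, map_inv, Int.units_inv_eq_self]

variable {A : Matrix (Fin b) (Fin a) (RR G)} {B : Matrix (Fin d) (Fin b) (RR G)}
  {w : G →* ℤˣ} {ε : (Fin a → RR G) →+ ℤ}

theorem Low.zsmul_sub (_hL : Low A B w ε) {e : Fin a → RR G} (he : ε e = 1) (v : Fin a → RR G) :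
    ε (v - ε v • e) = 0 := by
  rw [map_sub, map_zsmul, he, smul_eq_mul, mul_one, sub_self]

theorem Low.gsub (hL : Low A B w ε) {e : Fin a → RR G} (he : ε e = 1) (g : G) :
    ε (gof g • e - ((w g : ℤˣ) : ℤ) • e) = 0 := by
  rw [map_sub, map_zsmul, hL.equi, he, smul_eq_mul, sub_self]

theorem Low.dep (hL : Low A B w ε) {u : Fin b → Y → ℝ} (hu : dl B u = 0) {v v' : Fin b → RR G}
    (h : v ᵥ* A = v' ᵥ* A) : pr v u = pr v' u := by
  obtain ⟨t, ht⟩ := hL.exact1 (v - v') (by rw [Matrix.sub_vecMul, h, sub_self])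
  have h1 : pr (v - v') u = 0 := by rw [← ht, pr_vecMul, hu, pr_zero_right]
  rw [pr_sub] at h1
  exact sub_eq_zero.1 h1

/-- degree zero -/
theorem Low.zero_le (hL : Low A B w ε) (y₀ : Y) (htr : ∀ y : Y, ∃ g : G, g • y₀ = y) :
    Module.finrank ℝ (LinearMap.ker (dl (Y := Y) A)) ≤ 1 := by
  obtain ⟨e, he⟩ := hL.surj
  let T : LinearMap.ker (dl (Y := Y) A) →ₗ[ℝ] ℝ :=
    { toFun := fun u => pr e u.1 y₀
      map_add' := fun u u' => by
        change pr e (u.1 + u'.1) y₀ = _
        rw [pr_add_right]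
        rfl
      map_smul' := fun r u => by
        change pr e (r • u.1) y₀ = _
        rw [pr_smul_right]
        rfl }
  have hT : Function.Injective T := by
    rw [injective_iff_map_eq_zero]
    rintro ⟨u, hu⟩ h0
    have hu' : dl A u = 0 := hu
    have h0' : pr e u y₀ = 0 := h0
    have hz : ∀ v, ε v = 0 → pr v u = 0 := by
      intro v hv
      obtain ⟨t, ht⟩ := hL.exact0 v hv
      rw [← ht, pr_vecMul, hu', pr_zero_right]
    have h1 : pr e u = 0 := by
      funext y
      obtain ⟨g, hg⟩ := htr y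
      have h2 := hz _ (hL.gsub he g⁻¹)
      rw [pr_sub, pr_smul, pr_zsmul, sub_eq_zero] at h2
      have h3 := congrFun h2 y₀
      rw [fa_of, inv_inv, hg] at h3
      rw [h3]
      change _ * pr e u y₀ = 0
      rw [h0', mul_zero]
    apply Subtype.ext
    funext k
    have h2 := hz _ (hL.zsmul_sub he (Pi.single k 1))
    rw [pr_sub, pr_zsmul, h1, smul_zero, sub_zero, pr_single] at h2
    exact h2
  have h := LinearMap.finrank_le_finrank_of_injective hT
  rwa [Module.finrank_self] at h

/-- the cocycle of a cochain -/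
def coc (w : G →* ℤˣ) (V : G → Fin b → RR G) (u : Fin b → Y → ℝ) (g : G) : Y → ℝ :=
  sg w g • pr (V g) u

theorem Low.coc_mul (hL : Low A B w ε) {e : Fin a → RR G} {V : G → Fin b → RR G}
    (hV : ∀ g, V g ᵥ* A = gof g • e - ((w g : ℤˣ) : ℤ) • e) {u : Fin b → Y → ℝ}
    (hu : dl B u = 0) (g h : G) (y : Y) :
    coc w V u (g * h) y = coc w V u g y + sg w g * coc w V u h (g⁻¹ • y) := by
  have h1 : pr (V (g * h)) u = pr (gof g • V h + ((w h : ℤˣ) : ℤ) • V g) u := by
    refine hL.dep hu ?_
    rw [hV, Matrix.add_vecMul, Matrix.smul_vecMul, hV, Matrix.smul_vecMul, hV, map_mul,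
      Units.val_mul, smul_sub, smul_sub, gof_mul, mul_smul (gof g) (gof h) e,
      smul_comm (gof g) ((w h : ℤˣ) : ℤ) e, mul_comm ((w g : ℤˣ) : ℤ), mul_smul ((w h : ℤˣ) : ℤ)]
    abel
  rw [pr_add, pr_smul, pr_zsmul] at h1
  change sg w (g * h) * pr (V (g * h)) u y =
    sg w g * pr (V g) u y + sg w g * (sg w h * pr (V h) u (g⁻¹ • y))
  rw [h1]
  change sg w (g * h) * (fa (gof g) (pr (V h) u) y + sg w h * pr (V g) u y) = _
  rw [fa_of, sg_mul]
  have := sg_sq w h
  linear_combination (sg w g * pr (V g) u y) * this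

/-- a cocycle which vanishes at the base point on the part of the stabilizer with `w = 1` is a
coboundary -/
theorem exists_primitive {w : G →* ℤˣ} {y₀ : Y} (htr : ∀ y : Y, ∃ g : G, g • y₀ = y)
    {b : G → Y → ℝ} (hb : ∀ g h y, b (g * h) y = b g y + sg w g * b h (g⁻¹ • y))
    (h0 : ∀ h : G, h • y₀ = y₀ → sg w h = 1 → b h y₀ = 0) :
    ∃ p : Y → ℝ, ∀ g y, b g y = sg w g * p (g⁻¹ • y) - p y := by
  have hinv : ∀ h : G, h • y₀ = y₀ → h⁻¹ • y₀ = y₀ := fun h hh => by
    conv_lhs => rw [← hh, inv_smul_smul]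
  obtain ⟨p₀, hp₀⟩ : ∃ p₀ : ℝ, ∀ h : G, h • y₀ = y₀ → b h y₀ = sg w h * p₀ - p₀ := by
    by_cases ht : ∃ t : G, t • y₀ = y₀ ∧ sg w t = -1
    · obtain ⟨t, ht, hwt⟩ := ht
      refine ⟨-(b t y₀) / 2, fun h hh => ?_⟩
      rcases sg_cases w h with h1 | h1
      · rw [h0 h hh h1, h1]
        ring
      · have e1 : h = h * t⁻¹ * t := by group
        have e2 : (h * t⁻¹) • y₀ = y₀ := by rw [mul_smul, hinv t ht, hh]
        have e3 : sg w (h * t⁻¹) = 1 := by rw [sg_mul, sg_inv, h1, hwt]; norm_num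
        have e4 := hb (h * t⁻¹) t y₀
        rw [← e1, h0 _ e2 e3, e3, hinv _ e2] at e4
        rw [e4, h1]
        ring
    · refine ⟨0, fun h hh => ?_⟩
      rcases sg_cases w h with h1 | h1
      · rw [h0 h hh h1]
        ring
      · exact absurd ⟨h, hh, h1⟩ ht
  choose g hg using htr
  set p : Y → ℝ := fun y => sg w (g y)⁻¹ * (b (g y)⁻¹ y₀ + p₀) with hp
  have key : ∀ k : G, b k y₀ = sg w k * p (k⁻¹ • y₀) - p₀ := by
    intro k
    set y := k⁻¹ • y₀ with hy
    set h := k * g y with hh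
    have e1 : h • y₀ = y₀ := by rw [hh, mul_smul, hg, hy, smul_inv_smul]
    have e2 : k = h * (g y)⁻¹ := by rw [hh]; group
    have e3 := hb h (g y)⁻¹ y₀
    rw [← e2, hinv h e1, hp₀ h e1] at e3
    have e4 : sg w k = sg w h * sg w (g y)⁻¹ := by rw [← sg_mul, ← e2]
    rw [e3, hp, e4]
    have := sg_sq w (g y)⁻¹
    simp only
    linear_combination (-(sg w h * (b (g y)⁻¹ y₀ + p₀))) * this
  refine ⟨p, fun k y => ?_⟩
  have e1 : (g y)⁻¹⁻¹ • y₀ = y := by rw [inv_inv, hg]
  have e2 := hb (g y)⁻¹ k y₀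
  rw [e1, key, key] at e2
  have e3 : ((g y)⁻¹ * k)⁻¹ • y₀ = k⁻¹ • y := by rw [mul_inv_rev, inv_inv, mul_smul, hg]
  rw [e3, inv_inv, hg, sg_mul] at e2
  have := sg_sq w (g y)⁻¹
  linear_combination (-(sg w (g y)⁻¹)) * e2 + (sg w k * p (k⁻¹ • y) - p y - b k y) * this

/-- degree one -/
theorem Low.one_le [Finite Y] (hL : Low A B w ε) (y₀ : Y) (htr : ∀ y : Y, ∃ g : G, g • y₀ = y)
    (H : Subgroup G) (hH : ∀ h, h ∈ H ↔ h • y₀ = y₀ ∧ w h = 1)
    (hfin : Module.Finite ℝ (Additive H →+ ℝ)) :
    Module.finrank ℝ (LinearMap.ker (dl (Y := Y) B)) ≤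
      Module.finrank ℝ (LinearMap.range (dl (Y := Y) A)) +
        Module.finrank ℝ (Additive H →+ ℝ) := by
  classical
  have := Fintype.ofFinite Y
  obtain ⟨e, he⟩ := hL.surj
  choose V hV using fun g => hL.exact0 _ (hL.gsub he g)
  have hinv : ∀ h : G, h • y₀ = y₀ → h⁻¹ • y₀ = y₀ := fun h hh => by
    conv_lhs => rw [← hh, inv_smul_smul]
  have hsgH : ∀ h : G, w h = 1 → sg w h = 1 := fun h hh => by rw [sg, hh]; norm_num
  let T : LinearMap.ker (dl (Y := Y) B) →ₗ[ℝ] (Additive H →+ ℝ) :=
    { toFun := fun u => AddMonoidHom.mk' (fun h => coc w V u.1 ((Additive.toMul h : H) : G) y₀)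
        (fun h k => by
          have h1 := hL.coc_mul hV u.2 ((Additive.toMul h : H) : G) ((Additive.toMul k : H) : G) y₀
          have h2 := (hH _).1 (Additive.toMul h : H).2
          rw [hinv _ h2.1, hsgH _ h2.2, one_mul] at h1
          exact h1)
      map_add' := fun u u' => by
        ext h
        change sg w _ * pr _ (u.1 + u'.1) y₀ = sg w _ * pr _ u.1 y₀ + sg w _ * pr _ u'.1 y₀
        rw [pr_add_right, Pi.add_apply, mul_add]
      map_smul' := fun r u => by
        ext h
        change sg w _ * pr _ (r • u.1) y₀ = r * (sg w _ * pr _ u.1 y₀)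
        rw [pr_smul_right, Pi.smul_apply, smul_eq_mul]
        ring }
  have hker : (LinearMap.ker T).map (LinearMap.ker (dl (Y := Y) B)).subtype ≤
      LinearMap.range (dl (Y := Y) A) := by
    rintro _ ⟨⟨u, hu⟩, hT, rfl⟩
    have hu' : dl B u = 0 := hu
    change u ∈ _
    obtain ⟨p, hp⟩ := exists_primitive (b := coc w V u) htr (fun g h y => hL.coc_mul hV hu' g h y)
      (fun h hh hw => by
        have h1 : (h : G) ∈ H := (hH h).2 ⟨hh, sg_eq_one hw⟩
        have h2 : T ⟨u, hu⟩ = 0 := hT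
        exact DFunLike.congr_fun h2 (Additive.ofMul (⟨h, h1⟩ : H)))
    choose χ hχ using fun v => hL.exact0 _ (hL.zsmul_sub he v)
    set Φ : (Fin a → RR G) → (Y → ℝ) := fun v => pr (χ v) u + (ε v : ℝ) • p with hΦ
    have hadd : ∀ v v' : Fin a → RR G, Φ (v + v') = Φ v + Φ v' := by
      intro v v'
      have h1 : pr (χ (v + v')) u = pr (χ v + χ v') u := by
        refine hL.dep hu' ?_
        rw [Matrix.add_vecMul, hχ, hχ, hχ, map_add, add_smul]
        abel
      simp only [hΦ]
      rw [h1, pr_add, map_add, Int.cast_add, add_smul]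
      abel
    have hsm : ∀ (g : G) (v : Fin a → RR G), Φ (gof g • v) = fa (gof g) (Φ v) := by
      intro g v
      have h1 : pr (χ (gof g • v)) u = pr (gof g • χ v + ε v • V g) u := by
        refine hL.dep hu' ?_
        rw [hχ, Matrix.add_vecMul, Matrix.smul_vecMul, Matrix.smul_vecMul, hχ, hV, hL.equi,
          smul_sub, smul_sub, smul_comm (gof g) (ε v) e, mul_comm ((w g : ℤˣ) : ℤ), mul_smul (ε v)]
        abel
      funext y
      have h2 := hp g y
      have h3 : coc w V u g y = sg w g * pr (V g) u y := rfl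
      rw [h3] at h2
      simp only [hΦ]
      rw [h1, pr_add, pr_smul, pr_zsmul, map_add, hL.equi, Int.cast_mul,
        (fa (gof g) : Module.End ℝ (Y → ℝ)).map_smul]
      change fa (gof g) (pr (χ v) u) y + (ε v : ℝ) * pr (V g) u y +
        (sg w g * (ε v : ℝ)) * p y = fa (gof g) (pr (χ v) u) y + (ε v : ℝ) * fa (gof g) p y
      rw [fa_of g p]
      have h4 := sg_sq w g
      linear_combination ((ε v : ℝ) * sg w g) * h2 +
        ((ε v : ℝ) * (p (g⁻¹ • y) - pr (V g) u y)) * h4
    have hneg : ∀ v : Fin a → RR G, Φ (-v) = -Φ v := by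
      intro v
      have h1 := hadd v (-v)
      have h2 := hadd 0 0
      rw [add_zero] at h2
      have h3 : Φ 0 = 0 := by simpa using h2
      rw [add_neg_cancel, h3] at h1
      exact (neg_eq_of_add_eq_zero_right h1.symm).symm
    have hzero : Φ 0 = 0 := by simpa using hadd 0 0
    have hsmul : ∀ (r : RR G) (v : Fin a → RR G), Φ (r • v) = fa r (Φ v) := by
      intro r
      induction r using rr_ind with
      | h1 g => exact hsm g
      | h2 r s hr hs =>
        intro v
        rw [add_smul, hadd, hr, hs, map_add fa]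
        rfl
      | h3 r hr =>
        intro v
        rw [neg_smul, hneg, hr, map_neg fa]
        rfl
    have hall : ∀ v : Fin a → RR G, Φ v = pr v (fun k => Φ (Pi.single k 1)) := by
      intro v
      have h1 : v = ∑ k, v k • (Pi.single k (1 : RR G) : Fin a → RR G) := by
        funext j
        rw [Finset.sum_apply, Finset.sum_eq_single j]
        · rw [Pi.smul_apply, Pi.single_eq_same, smul_eq_mul, mul_one]
        · intro k _ hk
          rw [Pi.smul_apply, Pi.single_eq_of_ne hk.symm, smul_zero]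
        · intro h
          exact absurd (Finset.mem_univ j) h
      have h2 : ∀ s : Finset (Fin a), Φ (∑ k ∈ s, v k • (Pi.single k (1 : RR G) : Fin a → RR G)) =
          ∑ k ∈ s, fa (v k) (Φ (Pi.single k 1)) := by
        intro s
        induction s using Finset.induction_on with
        | empty => simpa using hzero
        | insert k s hk ih => rw [Finset.sum_insert hk, Finset.sum_insert hk, hadd, ih, hsmul]
      conv_lhs => rw [h1, h2]
      rfl
    refine ⟨fun k => Φ (Pi.single k 1), funext fun j => ?_⟩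
    rw [dl_apply, ← hall]
    have h1 : A j = (Pi.single j (1 : RR G) : Fin b → RR G) ᵥ* A := by
      rw [Matrix.single_one_vecMul]
      rfl
    have h2 : ε (A j) = 0 := by rw [h1]; exact hL.comp _
    have h3 : pr (χ (A j)) u = pr (Pi.single j (1 : RR G)) u := by
      refine hL.dep hu' ?_
      rw [hχ, h2, zero_smul, sub_zero]
      exact h1
    simp only [hΦ]
    rw [h2, h3, pr_single, Int.cast_zero, zero_smul, add_zero]
  have h1 := LinearMap.finrank_range_add_finrank_ker T
  have h2 : Module.finrank ℝ (LinearMap.range T) ≤ Module.finrank ℝ (Additive H →+ ℝ) :=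
    Submodule.finrank_le _
  have h3 : Module.finrank ℝ (LinearMap.ker T) ≤
      Module.finrank ℝ (LinearMap.range (dl (Y := Y) A)) := by
    have e1 : Module.finrank ℝ ((LinearMap.ker T).map (LinearMap.ker (dl (Y := Y) B)).subtype) =
        Module.finrank ℝ (LinearMap.ker T) :=
      (LinearEquiv.finrank_eq (Submodule.equivMapOfInjective _
        (Submodule.injective_subtype _) _)).symm
    rw [← e1]
    exact Submodule.finrank_mono hker
  omega

end

end Pool.Agent.Q103.FC
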