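import Pool.Agent.Q103.FC.Low
import Pool.Agent.Q103.BG.Main
import Pool.Agent.Q103.SG.Cat

/-!
# Betti numbers of finite coverings: duality and the Euler characteristic
-/

set_option autoImplicit false

open scoped Matrix
open Module
open Pool.Agent.Helper386.PD3

namespace Pool.Agent.Q103.FC

noncomputable section

variable {G : Type} [Group G]

/-- dual of the low degrees -/
theorem low_dual {a b d : ℕ} {D₀ : Matrix (Fin b) (Fin a) (RR G)} {D₁ : Matrix (Fin d) (Fin b) (RR G)}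
    {w : G →* ℤˣ} (θ : (Fin d → RR G) →+ ℤ)
    (h1 : ∀ g u, θ (fun j => u j * gof g) = ((w g : ℤˣ) : ℤ) * θ u) (h2 : ∃ u, θ u = 1)
    (h3 : ∀ u, θ u = 0 ↔ ∃ t, D₁ *ᵥ t = u) (h4 : ∀ u, D₁ *ᵥ u = 0 → ∃ t, D₀ *ᵥ t = u) :
    Low (dag D₁) (dag D₀) w (AddMonoidHom.mk' (fun v => θ (dv v)) fun v v' => by
      rw [dv_add, map_add]) := by
  constructor
  · intro g v
    change θ (dv (gof g • v)) = _ * θ (dv v)
    have e1 : dv (gof g • v) = fun j => dv v j * gof g⁻¹ := funext fun j => dv_smul g v j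
    rw [e1, h1, map_inv, Int.units_inv_eq_self]
  · obtain ⟨u, hu⟩ := h2
    refine ⟨dv u, ?_⟩
    change θ (dv (dv u)) = 1
    rw [dv_dv, hu]
  · intro v hv
    obtain ⟨t, ht⟩ := (h3 (dv v)).1 hv
    exact ⟨dv t, by rw [← dv_mulVec, ht, dv_dv]⟩
  · intro u
    change θ (dv (u ᵥ* dag D₁)) = 0
    rw [dv_vecMul_dag]
    exact (h3 _).2 ⟨_, rfl⟩
  · intro v hv
    obtain ⟨t, ht⟩ := h4 (dv v) (by rw [← dv_vecMul_dag, hv, dv_zero])
    exact ⟨dv t, by rw [← dv_mulVec, ht, dv_dv]⟩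

section betti

variable (c : ℕ → ℕ) (D : ∀ i, Matrix (Fin (c (i + 1))) (Fin (c i)) (RR G)) (Y : Type*)
  [MulAction G Y]

/-- dimension of the cocycles -/
def kd (i : ℕ) : ℕ := finrank ℝ (LinearMap.ker (dl (Y := Y) (D i)))

/-- dimension of the coboundaries -/
def rd (i : ℕ) : ℕ := finrank ℝ (LinearMap.range (dl (Y := Y) (D i)))

/-- Betti numbers -/
def bt : ℕ → ℕ
  | 0 => kd c D Y 0
  | (i + 1) => kd c D Y (i + 1) - rd c D Y i

variable [Fintype Y]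

theorem kd_rd (i : ℕ) : rd c D Y i + kd c D Y i = c i * Fintype.card Y := by
  have h := LinearMap.finrank_range_add_finrank_ker (dl (Y := Y) (D i))
  have h2 : finrank ℝ (Fin (c i) → Y → ℝ) = c i * Fintype.card Y := by
    rw [finrank_pi_fintype]
    simp
  rw [h2] at h
  exact h

theorem rd_le (hD : ∀ i v, (v ᵥ* D (i + 1)) ᵥ* D i = 0) (i : ℕ) :
    rd c D Y i ≤ kd c D Y (i + 1) := by
  refine Submodule.finrank_mono ?_
  rintro _ ⟨u, rfl⟩
  exact dl_dl (hD i) u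

theorem bt_succ (hD : ∀ i v, (v ᵥ* D (i + 1)) ᵥ* D i = 0) (i : ℕ) :
    (bt c D Y (i + 1) : ℤ) = c (i + 1) * Fintype.card Y - rd c D Y (i + 1) - rd c D Y i := by
  have h1 := rd_le c D Y hD i
  have h2 := kd_rd c D Y (i + 1)
  have h3 : bt c D Y (i + 1) = kd c D Y (i + 1) - rd c D Y i := rfl
  rw [h3, Nat.cast_sub h1]
  have h4 : ((rd c D Y (i + 1) + kd c D Y (i + 1) : ℕ) : ℤ) =
      ((c (i + 1) * Fintype.card Y : ℕ) : ℤ) := by rw [h2]
  push_cast at h4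
  linarith

theorem bt_zero : (bt c D Y 0 : ℤ) = c 0 * Fintype.card Y - rd c D Y 0 := by
  have h2 := kd_rd c D Y 0
  have h3 : bt c D Y 0 = kd c D Y 0 := rfl
  rw [h3]
  have h4 : ((rd c D Y 0 + kd c D Y 0 : ℕ) : ℤ) = ((c 0 * Fintype.card Y : ℕ) : ℤ) := by rw [h2]
  push_cast at h4
  linarith

theorem euler_partial (hD : ∀ i v, (v ᵥ* D (i + 1)) ᵥ* D i = 0) (n : ℕ) :
    ∑ i ∈ Finset.range (n + 1), (-1 : ℤ) ^ i * bt c D Y i =
      (∑ i ∈ Finset.range (n + 1), (-1 : ℤ) ^ i * c i) * Fintype.card Y -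
        (-1) ^ n * rd c D Y n := by
  induction n with
  | zero =>
    simp only [zero_add, Finset.sum_range_one, pow_zero, one_mul]
    rw [bt_zero]
  | succ n ih =>
    rw [Finset.sum_range_succ, ih, Finset.sum_range_succ _ (n + 1), bt_succ c D Y hD]
    ring

theorem rd_eq_zero {i : ℕ} (h : c (i + 1) = 0) : rd c D Y i = 0 := by
  have : Subsingleton (Fin (c (i + 1)) → Y → ℝ) := by
    rw [h]
    infer_instance
  have h1 : rd c D Y i ≤ finrank ℝ (Fin (c (i + 1)) → Y → ℝ) := Submodule.finrank_le _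
  rw [finrank_zero_of_subsingleton] at h1
  omega

theorem euler_bt (hD : ∀ i v, (v ᵥ* D (i + 1)) ᵥ* D i = 0) {n : ℕ} (hn : c (n + 1) = 0) :
    ∑ i ∈ Finset.range (n + 1), (-1 : ℤ) ^ i * bt c D Y i =
      (∑ i ∈ Finset.range (n + 1), (-1 : ℤ) ^ i * c i) * Fintype.card Y := by
  rw [euler_partial c D Y hD, rd_eq_zero c D Y hn]
  simp

theorem bt_big (hD : ∀ i v, (v ᵥ* D (i + 1)) ᵥ* D i = 0) {i : ℕ} (h : c (i + 1) = 0) :
    bt c D Y (i + 1) = 0 := by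
  have h1 := bt_succ c D Y hD i
  have h2 := rd_eq_zero c D Y h
  rw [h, h2] at h1
  push_cast at h1
  omega

/-- the top degree in terms of the dual complex -/
theorem bt_top (hD : ∀ i v, (v ᵥ* D (i + 1)) ᵥ* D i = 0) {i : ℕ} (h : c (i + 2) = 0) :
    bt c D Y (i + 1) = finrank ℝ (LinearMap.ker (dl (Y := Y) (dag (D i)))) := by
  have h1 := bt_succ c D Y hD i
  have h2 := rd_eq_zero c D Y h
  have h3 := LinearMap.finrank_range_add_finrank_ker (dl (Y := Y) (dag (D i)))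
  rw [rank_dag] at h3
  have h4 : finrank ℝ (Fin (c (i + 1)) → Y → ℝ) = c (i + 1) * Fintype.card Y := by
    rw [finrank_pi_fintype]
    simp
  rw [h4] at h3
  have h5 : finrank ℝ (LinearMap.range (dl (Y := Y) (D i))) = rd c D Y i := rfl
  rw [h5] at h3
  rw [h2] at h1
  zify
  zify at h3
  push_cast at h1
  linarith

/-- the degrees below in terms of the dual complex -/
theorem bt_dual (hD : ∀ i v, (v ᵥ* D (i + 1)) ᵥ* D i = 0) (i : ℕ) :
    bt c D Y (i + 1) + finrank ℝ (LinearMap.range (dl (Y := Y) (dag (D (i + 1))))) =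
      finrank ℝ (LinearMap.ker (dl (Y := Y) (dag (D i)))) := by
  have h1 := bt_succ c D Y hD i
  have h3 := LinearMap.finrank_range_add_finrank_ker (dl (Y := Y) (dag (D i)))
  rw [rank_dag] at h3 ⊢
  have h4 : finrank ℝ (Fin (c (i + 1)) → Y → ℝ) = c (i + 1) * Fintype.card Y := by
    rw [finrank_pi_fintype]
    simp
  rw [h4] at h3
  have h5 : finrank ℝ (LinearMap.range (dl (Y := Y) (D i))) = rd c D Y i := rfl
  have h6 : finrank ℝ (LinearMap.range (dl (Y := Y) (D (i + 1)))) = rd c D Y (i + 1) := rfl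
  rw [h5] at h3
  rw [h6]
  zify
  zify at h3
  linarith

end betti

section growth

/-- the points of `G ⧸ H` fixed by short elements -/
def SF {X : Type*} [MetricSpace X] [MulAction G X] (o : X) (H : Subgroup G) (ρ : ℝ) : Set (G ⧸ H) :=
  {v | ∃ x : G, x ≠ 1 ∧ dist o (x • o) ≤ ρ ∧ x • v = v}

theorem ker_index (w : G →* ℤˣ) : w.ker.index ≤ 2 := by
  rw [Subgroup.index_ker]
  have h1 : Nat.card w.range ≤ Nat.card ℤˣ :=
    Nat.card_le_card_of_injective (Subtype.val : w.range → ℤˣ) Subtype.val_injective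
  have h2 : Nat.card ℤˣ = 2 := by
    rw [Nat.card_eq_fintype_card]
    exact Fintype.card_units_int
  omega

instance ker_fin (w : G →* ℤˣ) : w.ker.FiniteIndex := by
  refine ⟨?_⟩
  rw [Subgroup.index_ker]
  exact Nat.card_pos.ne'

theorem SF_le {X : Type*} [MetricSpace X] [MulAction G X] (o : X) (H : Subgroup G)
    [H.FiniteIndex] (w : G →* ℤˣ) (ρ : ℝ) : (SF o (H ⊓ w.ker) ρ).ncard ≤ 2 * (SF o H ρ).ncard := by
  classical
  have _ : Fintype (G ⧸ H) := H.fintypeQuotientOfFiniteIndex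
  have _ : Fintype (G ⧸ (H ⊓ w.ker)) := (H ⊓ w.ker).fintypeQuotientOfFiniteIndex
  rw [Set.ncard_eq_toFinset_card', Set.ncard_eq_toFinset_card']
  let φ : G ⧸ (H ⊓ w.ker) → G ⧸ H := fun v => (v.out : G)
  have hφ : ∀ x : G, φ (x : G ⧸ (H ⊓ w.ker)) = (x : G ⧸ H) := by
    intro x
    change (((x : G ⧸ (H ⊓ w.ker)).out : G) : G ⧸ H) = _
    rw [QuotientGroup.eq]
    have h1 : (((x : G ⧸ (H ⊓ w.ker)).out : G) : G ⧸ (H ⊓ w.ker)) = (x : G ⧸ (H ⊓ w.ker)) :=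
      QuotientGroup.out_eq' _
    rw [QuotientGroup.eq] at h1
    exact h1.1
  refine Finset.card_le_mul_card_image_of_maps_to (f := φ) ?_ 2 ?_
  · intro v hv
    rw [Set.mem_toFinset] at hv ⊢
    obtain ⟨x, hx1, hx2, hx3⟩ := hv
    refine ⟨x, hx1, hx2, ?_⟩
    have e : v = ((v.out : G) : G ⧸ (H ⊓ w.ker)) := (QuotientGroup.out_eq' v).symm
    have h1 : φ (x • v) = x • φ v := by
      conv_lhs => rw [e]
      have : x • ((v.out : G) : G ⧸ (H ⊓ w.ker)) = ((x * v.out : G) : G ⧸ (H ⊓ w.ker)) := rfl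
      rw [this, hφ]
      rfl
    rw [← h1, hx3]
  · intro b _
    have h2 : (Finset.univ : Finset ℤˣ).card = 2 := rfl
    rw [← h2]
    refine Finset.card_le_card_of_injOn (fun v => w (v.out)) (fun _ _ => Finset.mem_univ _) ?_
    intro v hv v' hv' hvv
    rw [Finset.mem_coe, Finset.mem_filter] at hv hv'
    have h3 : φ v = φ v' := hv.2.trans hv'.2.symm
    have h4 : ((v.out : G) : G ⧸ H) = ((v'.out : G) : G ⧸ H) := h3
    rw [QuotientGroup.eq] at h4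
    have h5 : ((v.out : G) : G ⧸ (H ⊓ w.ker)) = ((v'.out : G) : G ⧸ (H ⊓ w.ker)) := by
      rw [QuotientGroup.eq]
      refine ⟨h4, ?_⟩
      have h6 : w v.out = w v'.out := hvv
      change w ((v.out)⁻¹ * v'.out) = 1
      rw [map_mul, map_inv, h6, inv_mul_cancel]
    rwa [QuotientGroup.out_eq', QuotientGroup.out_eq'] at h5

theorem smul_base (H : Subgroup G) (h : G) :
    h • ((1 : G) : G ⧸ H) = ((1 : G) : G ⧸ H) ↔ h ∈ H := by
  have : h • ((1 : G) : G ⧸ H) = ((h * 1 : G) : G ⧸ H) := rfl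
  rw [this, QuotientGroup.eq, mul_one, mul_one, Subgroup.inv_mem_iff]

theorem trans_base (H : Subgroup G) (y : G ⧸ H) : ∃ g : G, g • ((1 : G) : G ⧸ H) = y := by
  refine ⟨y.out, ?_⟩
  have : y.out • ((1 : G) : G ⧸ H) = ((y.out * 1 : G) : G ⧸ H) := rfl
  rw [this, mul_one]
  exact QuotientGroup.out_eq' _

/-- the bounds for the Betti numbers of finite coverings -/
theorem bounds {X : Type*} [MetricSpace X] [MulAction G X] (o : X) (c : ℕ → ℕ)
    (D : ∀ i, Matrix (Fin (c (i + 1))) (Fin (c i)) (RR G))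
    (hDD : ∀ i v, (v ᵥ* D (i + 1)) ᵥ* D i = 0) (q : ℕ) (hc : ∀ i, q + 2 < i → c i = 0)
    {ε : (Fin (c 0) → RR G) →+ ℤ} (hlow : Low (D 0) (D 1) 1 ε) (w : G →* ℤˣ)
    {ε' : (Fin (c (q + 2)) → RR G) →+ ℤ} (hdual : Low (dag (D (q + 1))) (dag (D q)) w ε')
    {C : ℝ} (hC : ∀ (H : Subgroup G) [H.FiniteIndex] (ρ : ℝ), 2 ≤ ρ →
      Module.Finite ℝ (Additive H →+ ℝ) ∧
      (finrank ℝ (Additive H →+ ℝ) : ℝ) ≤ C * (H.index / Real.log ρ + (SF o H ρ).ncard)) :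
    ∃ C' : ℝ, 0 ≤ C' ∧ ∀ (H : Subgroup G) [H.FiniteIndex] (ρ : ℝ), 2 ≤ ρ →
      bt c D (G ⧸ H) 0 ≤ 1 ∧ bt c D (G ⧸ H) (q + 2) ≤ 1 ∧
      (∀ i, q + 2 < i → bt c D (G ⧸ H) i = 0) ∧
      (bt c D (G ⧸ H) 1 : ℝ) ≤ C' * (H.index / Real.log ρ + (SF o H ρ).ncard) ∧
      (bt c D (G ⧸ H) (q + 1) : ℝ) ≤ C' * (H.index / Real.log ρ + (SF o H ρ).ncard) := by
  set C₀ : ℝ := max C 0 with hC₀
  have hC0 : 0 ≤ C₀ := le_max_right _ _
  refine ⟨2 * C₀, by positivity, fun H _ ρ hρ => ?_⟩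
  have _ : Fintype (G ⧸ H) := H.fintypeQuotientOfFiniteIndex
  have hlogρ : 0 < Real.log ρ := Real.log_pos (by linarith)
  set E : ℝ := H.index / Real.log ρ + (SF o H ρ).ncard with hE
  have hE0 : 0 ≤ E := by positivity
  have htr := trans_base H
  refine ⟨hlow.zero_le _ htr, ?_, ?_, ?_, ?_⟩
  · rw [bt_top c D (G ⧸ H) hDD (hc _ (by omega))]
    exact hdual.zero_le _ htr
  · intro i hi
    obtain ⟨j, rfl⟩ := Nat.exists_eq_add_of_lt (show 0 < i by omega)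
    rw [zero_add] at hi ⊢
    exact bt_big c D (G ⧸ H) hDD (hc _ (by omega))
  · obtain ⟨hfin, hle⟩ := hC H ρ hρ
    have h1 := hlow.one_le _ htr H (fun h => by rw [smul_base]; simp) hfin
    have h2 : bt c D (G ⧸ H) 1 ≤ finrank ℝ (Additive H →+ ℝ) := by
      have h3 : bt c D (G ⧸ H) 1 = kd c D (G ⧸ H) 1 - rd c D (G ⧸ H) 0 := rfl
      have h4 : kd c D (G ⧸ H) 1 ≤ rd c D (G ⧸ H) 0 + finrank ℝ (Additive H →+ ℝ) := h1
      omega
    have h3 : (bt c D (G ⧸ H) 1 : ℝ) ≤ finrank ℝ (Additive H →+ ℝ) := by exact_mod_cast h2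
    have h4 : C * E ≤ C₀ * E := mul_le_mul_of_nonneg_right (le_max_left _ _) hE0
    have h5 : 0 ≤ C₀ * E := by positivity
    linarith
  · obtain ⟨hfin, hle⟩ := hC (H ⊓ w.ker) ρ hρ
    have h1 := hdual.one_le _ htr (H ⊓ w.ker) (fun h => by
      rw [smul_base, Subgroup.mem_inf, MonoidHom.mem_ker]) hfin
    have h2 := bt_dual c D (G ⧸ H) hDD q
    have h3 : bt c D (G ⧸ H) (q + 1) ≤ finrank ℝ (Additive (H ⊓ w.ker : Subgroup G) →+ ℝ) := by
      omega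
    have h4 : (bt c D (G ⧸ H) (q + 1) : ℝ) ≤
        finrank ℝ (Additive (H ⊓ w.ker : Subgroup G) →+ ℝ) := by exact_mod_cast h3
    have h5 : ((H ⊓ w.ker).index : ℝ) ≤ 2 * H.index := by
      have h6 : (H ⊓ w.ker).index ≤ H.index * w.ker.index := Subgroup.index_inf_le
      have h7 := ker_index w
      have h8 : H.index * w.ker.index ≤ H.index * 2 := Nat.mul_le_mul_left _ h7
      have h9 : (H ⊓ w.ker).index ≤ 2 * H.index := by omega
      exact_mod_cast h9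
    have h6 : ((SF o (H ⊓ w.ker) ρ).ncard : ℝ) ≤ 2 * (SF o H ρ).ncard := by
      exact_mod_cast SF_le o H w ρ
    have h7 : ((H ⊓ w.ker).index / Real.log ρ + (SF o (H ⊓ w.ker) ρ).ncard : ℝ) ≤ 2 * E := by
      have h8 : ((H ⊓ w.ker).index / Real.log ρ : ℝ) ≤ 2 * H.index / Real.log ρ :=
        div_le_div_of_nonneg_right h5 hlogρ.le
      have h9 : (2 * H.index / Real.log ρ : ℝ) = 2 * (H.index / Real.log ρ) := mul_div_assoc _ _ _
      rw [hE]
      linarith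
    have h8 : (0 : ℝ) ≤ (H ⊓ w.ker).index / Real.log ρ + (SF o (H ⊓ w.ker) ρ).ncard := by
      positivity
    have h9 : C * ((H ⊓ w.ker).index / Real.log ρ + (SF o (H ⊓ w.ker) ρ).ncard) ≤
        C₀ * ((H ⊓ w.ker).index / Real.log ρ + (SF o (H ⊓ w.ker) ρ).ncard) :=
      mul_le_mul_of_nonneg_right (le_max_left _ _) h8
    have h10 : C₀ * ((H ⊓ w.ker).index / Real.log ρ + (SF o (H ⊓ w.ker) ρ).ncard) ≤
        C₀ * (2 * E) := mul_le_mul_of_nonneg_left h7 hC0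
    linarith

/-- the middle dimension in dimension four -/
theorem middle {X : Type*} [MetricSpace X] [MulAction G X] (c : ℕ → ℕ)
    (D : ∀ i, Matrix (Fin (c (i + 1))) (Fin (c i)) (RR G))
    (hDD : ∀ i v, (v ᵥ* D (i + 1)) ᵥ* D i = 0) (hc : c 5 = 0) (H : Subgroup G) [H.FiniteIndex]
    (E : ℝ) (h0 : bt c D (G ⧸ H) 0 ≤ 1) (h4 : bt c D (G ⧸ H) 4 ≤ 1)
    (h1 : (bt c D (G ⧸ H) 1 : ℝ) ≤ E) (h3 : (bt c D (G ⧸ H) 3 : ℝ) ≤ E) :
    |(bt c D (G ⧸ H) 2 : ℝ) -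
      ((∑ i ∈ Finset.range 5, (-1 : ℤ) ^ i * c i : ℤ) : ℝ) * H.index| ≤ 2 + 2 * E := by
  have _ : Fintype (G ⧸ H) := H.fintypeQuotientOfFiniteIndex
  have h := euler_bt c D (G ⧸ H) hDD hc
  have e : H.index = Fintype.card (G ⧸ H) := by
    rw [Subgroup.index_eq_card, Nat.card_eq_fintype_card]
  rw [← e] at h
  have h' : ((∑ i ∈ Finset.range 5, (-1 : ℤ) ^ i * bt c D (G ⧸ H) i : ℤ) : ℝ) =
      ((∑ i ∈ Finset.range 5, (-1 : ℤ) ^ i * c i : ℤ) : ℝ) * H.index := by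
    rw [h]
    push_cast
    rfl
  rw [← h']
  simp only [Finset.sum_range_succ, Finset.sum_range_zero]
  push_cast
  have g0 : (bt c D (G ⧸ H) 0 : ℝ) ≤ 1 := by exact_mod_cast h0
  have g4 : (bt c D (G ⧸ H) 4 : ℝ) ≤ 1 := by exact_mod_cast h4
  have p0 : (0 : ℝ) ≤ bt c D (G ⧸ H) 0 := Nat.cast_nonneg _
  have p1 : (0 : ℝ) ≤ bt c D (G ⧸ H) 1 := Nat.cast_nonneg _
  have p3 : (0 : ℝ) ≤ bt c D (G ⧸ H) 3 := Nat.cast_nonneg _
  have p4 : (0 : ℝ) ≤ bt c D (G ⧸ H) 4 := Nat.cast_nonneg _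
  rw [abs_le]
  constructor <;> linarith

end growth

end

end Pool.Agent.Q103.FC
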